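import Pool.Agent.R213.NP.Fin
import Pool.Agent.R213.NP.Ode
import Pool.Agent.R213.NP.Prof
import Pool.Agent.R213.NP.Calc
import Pool.Agent.R213.NP.L2
import Pool.Agent.R213.NP.Ni
import Pool.Agent.R213.NP.Weak
import Pool.Agent.R213.NP.W
import Pool.Agent.R213.NP.Gr
import Pool.Agent.R213.NP.Asm

open MeasureTheory

namespace Pool.Agent.Results.MP_fe2fb1_an.PlanarNonParabolic

open Pool.Agent.R212.AdvDiff Pool.Agent.R213.NP

/-- There are an autonomous divergence-free drift `b ∈ L²(T²)`, a datum `u₀ ∈ L²(T²)` and a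
function `u` such that for every `T > 0`, `u ∈ L^∞([0,T]; L²(T²))` is a distributional solution of
`∂_t u + div (b u) = Δ u` on `(0,T) × T²` with datum `u₀` which is not parabolic, i.e.
`u ∉ L²([0,T]; H¹(T²))`. -/
theorem result : ∃ (b : (Fin 2 → ℝ) → (Fin 2 → ℝ)) (u₀ : (Fin 2 → ℝ) → ℝ)
    (u : ℝ → (Fin 2 → ℝ) → ℝ), MemLp b 2 (torusMeasure 2) ∧ ∀ T : ℝ, 0 < T →
      MemLrLp T 2 2 (fun _ => b) ∧ DivergenceFree T (fun _ => b) ∧
      IsDistributionalSolution T 2 (fun _ => b) u₀ u ∧ ¬ IsParabolic T u :=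
  final (asm (prof ode) pde (l2 grad pde) (ni grad) weak wpart gr)

end Pool.Agent.Results.MP_fe2fb1_an.PlanarNonParabolic
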